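import Pool.Agent.Helper60.ZEA.Und

/-!
The `∃∀`-theory of the ring `ℤ^ab` of all algebraic integers in the maximal abelian extension of
`ℚ` is undecidable, already for the sentences `∃ x ∀ y, P(n, x, y) ≠ 0` with one fixed polynomial
`P` and `n = 0, 1, 2, …`.

`Zab` is the subring of `ℂ` of all algebraic integers in the field generated over `ℚ` by all
complex roots of unity.

Idea of the proof. (1) The set of the roots of unity and the set of the real elements are
Diophantine in `ℤ^ab`. (2) For a real `f` the Pell equation `a ^ 2 - f b ^ 2 = 1` with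
`a ≡ 1 (mod 3)` has a real solution with `b ≠ 0` iff `f` is positive at some embedding; so
`f is positive at some embedding` is Diophantine (`E f`). (3) Let `F` be a polynomial. The sentence
says that there are roots of unity `ζ ≠ 1` and `η i` with `ζ - 1 ∣ η i - 1`, and a real `α ≠ 0`, such
that at every embedding with `|α| ≥ 1` (there is one): `h ≤ 3/4`, where with
`x i = (η i - 1) / (ζ - 1)`,
`h = C (1 + n ^ 2 + ∑ |x i| ^ 2) ^ D |ζ - 1| ^ 2 + 8 |F(n, x)| ^ 2`, and `|θ - 1| ^ 2 ≥ (3/4) |ζ - 1| ^ 2`
for all roots of unity `θ ≠ 1` with `ζ - 1 ∣ θ - 1`. At such an embedding `ζ` is `e(± 1 / M)`, where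
`M` is the order of the group generated by `ζ` and the `η i`, so `η i` is `e(± a i / M)` and `x i` is
close to the integer `a i`; it follows that `F(n, a) = 0`. Conversely, if `F(n, a) = 0` then
`ζ = e(1 / p)` with a large prime `p`, `η i = ζ ^ (a i)` and an element `α` which is small at all
embeddings of `ℚ(ζ)` but two satisfy the conditions. (4) Matiyasevich's theorem applies.
-/

namespace Pool.Agent.Results.MP_5e144c_lc.ExistsForallUndecidable

open MvPolynomial Pool.Agent.Helper63.ZabUnd Pool.Agent.Helper60.ZEA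

/-- (1) For every recursively enumerable set `W` of natural numbers there are `k`, `m` and a
polynomial `P(t, x₁, …, x_k, y₁, …, y_m)` with integer coefficients such that `n ∈ W` iff
`∃ x ∀ y, P(n, x, y) ≠ 0` holds in `ℤ^ab`. (2) There is one such polynomial `P` for which no
algorithm tells for given `n` whether `∃ x ∀ y, P(n, x, y) ≠ 0` holds in `ℤ^ab`. -/
theorem result :
    (∀ W : ℕ → Prop, REPred W → ∃ (k m : ℕ) (P : MvPolynomial (Option (Fin k ⊕ Fin m)) ℤ),
      ∀ n : ℕ, W n ↔ ∃ x : Fin k → Zab, ∀ y : Fin m → Zab,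
        aeval (fun o : Option (Fin k ⊕ Fin m) => o.elim (n : Zab) (Sum.elim x y)) P ≠ 0) ∧
    ∃ (k m : ℕ) (P : MvPolynomial (Option (Fin k ⊕ Fin m)) ℤ),
      ¬ ComputablePred fun n : ℕ => ∃ x : Fin k → Zab, ∀ y : Fin m → Zab,
        aeval (fun o : Option (Fin k ⊕ Fin m) => o.elim (n : Zab) (Sum.elim x y)) P ≠ 0 := by
  refine ⟨fun W hW => re_ea hW, ?_⟩
  obtain ⟨k, m, P, hP⟩ := re_ea Pool.Agent.Helper81.halting_rePred
  refine ⟨k, m, P, fun h => ?_⟩
  have h' : ComputablePred fun n : ℕ => (Nat.Partrec.Code.eval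
      (Encodable.decode (α := Nat.Partrec.Code) n |>.getD Nat.Partrec.Code.zero) 0).Dom :=
    h.of_eq fun n => (hP n).symm
  apply ComputablePred.halting_problem 0
  obtain ⟨f, hf, hf'⟩ := ComputablePred.computable_iff.1 h'
  refine ComputablePred.computable_iff.2 ⟨fun c => f (Encodable.encode c),
    hf.comp Computable.encode, ?_⟩
  funext c
  have h1 := congrFun hf' (Encodable.encode c)
  simp only [Encodable.encodek, Option.getD_some] at h1
  exact h1

end Pool.Agent.Results.MP_5e144c_lc.ExistsForallUndecidable
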