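import Pool.Agent.Helper60.ZEA.DioR

/-!
`ℤ^rab` (the real elements of `ℤ^ab`) and the graph of complex conjugation are Diophantine in
`ℤ^ab`, that is, they are defined by one polynomial equation with integer coefficients.

`Zab` is the subring of `ℂ` of all algebraic integers in the field generated over `ℚ` by all
complex roots of unity.

Idea of the proof. Units of `ℤ^ab` which are congruent to `1` modulo `3` are real; this gives a
Diophantine set `Rk` of real elements which contains `ℤ`. An element `z` is real iff for some root of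
unity `ζ`, `θ = ζ + ζ⁻¹`, and some `N, j, B, r` in `Rk`, `N ≠ 0`, with `z' = 6 N (z + j θ)`:
`6 (B - θ)` divides `z' - r` and `z' - 1` divides `B - θ`. If this holds then `6 (z' - 1)` divides
`z' - conj z'`, and `|z' - conj z'| ≤ 2 |z' - 1|` for all conjugates, so `z'` is real. Conversely,
modulo `c w - 1` the element `w` is congruent to an integer, and so is every element of `ℤ[w]`.
-/

namespace Pool.Agent.Results.MP_5e144c_lc.RealPartDiophantine

open MvPolynomial Pool.Agent.Helper63.ZabUnd Pool.Agent.Helper60.ZEA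

/-- (1) The set of the real elements of `ℤ^ab` is Diophantine in `ℤ^ab`. (2) The graph of complex
conjugation is Diophantine in `ℤ^ab`. (3) For every polynomial equation over the ring of the real
elements of `ℤ^ab`, with one parameter `t`, there is a polynomial equation over `ℤ^ab` with the
parameter `t` which has a solution for the same `t`. -/
theorem result :
    (∃ (k : ℕ) (p : MvPolynomial (Fin 1 ⊕ Fin k) ℤ), ∀ z : Zab, (z : ℂ).im = 0 ↔
      ∃ w : Fin k → Zab, aeval (Sum.elim ![z] w) p = 0) ∧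
    (∃ (k : ℕ) (p : MvPolynomial (Fin 2 ⊕ Fin k) ℤ), ∀ x y : Zab,
      (y : ℂ) = (starRingEnd ℂ) (x : ℂ) ↔
        ∃ w : Fin k → Zab, aeval (Sum.elim ![x, y] w) p = 0) ∧
    ∀ (n : ℕ) (f : MvPolynomial (Fin 1 ⊕ Fin n) ℤ), ∃ (k : ℕ) (p : MvPolynomial (Fin 1 ⊕ Fin k) ℤ),
      ∀ t : Zab, (∃ x : Fin n → Zab, (∀ i, (x i : ℂ).im = 0) ∧
          aeval (Sum.elim ![t] x) f = 0) ↔
        ∃ w : Fin k → Zab, aeval (Sum.elim ![t] w) p = 0 := by
  have hreal : ∀ z : Zab, (z : ℂ).im = 0 ↔ cj z = z := by
    intro z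
    rw [← Complex.conj_eq_iff_im]
    exact ⟨fun h => Subtype.ext h, fun h => congrArg Subtype.val h⟩
  refine ⟨?_, ?_, ?_⟩
  · obtain ⟨k, p, hp⟩ := (dio_real (α := Fin 1) (PF.var 0)).exists_fin
    exact ⟨k, p, fun z => (hreal z).trans (hp ![z])⟩
  · obtain ⟨k, p, hp⟩ := (dio_cj (α := Fin 2) (PF.var 0) (PF.var 1)).exists_fin
    refine ⟨k, p, fun x y => Iff.trans ?_ (hp ![x, y])⟩
    exact ⟨fun h => Subtype.ext h.symm, fun h => (congrArg Subtype.val h).symm⟩
  · intro n f
    have h : Dio (fun u : Fin 1 ⊕ Fin n → Zab =>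
        (∀ i : Fin n, cj (u (Sum.inr i)) = u (Sum.inr i)) ∧ aeval u f = 0) :=
      (Dio.forall_fin fun i => dio_real (PF.var _)).and (Dio.eq ⟨f, fun _ => rfl⟩ PF.zero)
    obtain ⟨k, p, hp⟩ := h.exs.exists_fin
    refine ⟨k, p, fun t => Iff.trans ?_ (hp ![t])⟩
    refine exists_congr fun x => and_congr ?_ Iff.rfl
    exact forall_congr' fun i => hreal (x i)

end Pool.Agent.Results.MP_5e144c_lc.RealPartDiophantine
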