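import Pool.Agent.Helper63.ZabUnd.Main

/-!
The first-order theory of the ring `ℤ^ab` of all algebraic integers in the maximal abelian
extension of `ℚ` is undecidable.

`Zab` is the subring of `ℂ` of all algebraic integers in the field generated over `ℚ` by all
complex roots of unity. `godel` is an explicit injective Gödel numbering of the sentences of
the language of rings.

Proof. (1) A unit `u` of `ℤ^ab` satisfies `conj u = η u` with `η` a root of unity; hence units
`x, y` with `x + y = 2` are real or `1 - x` is a root of unity; hence `1 - α ^ 4` is a unit only
for `α` zero or a root of unity, and this makes the set of roots of unity existentially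
definable (`mem_rootsU_iff`). (2) `x` is a rational integer iff for all roots of unity `ζ` there
is a root of unity `y` with `(ζ - 1) ^ 2` dividing `y - 1 - x (ζ - 1)` (`mem_int_iff`).
(3) So `ℤ` and `ℕ` are definable, and the undecidability of Hilbert's tenth problem over `ℤ`
applies.
-/

namespace Pool.Agent.Results.MP_5e144c_lc.ZabUndecidable

open FirstOrder Language Pool.Agent.Helper63.ZabUnd

attribute [local instance] FirstOrder.Ring.compatibleRingOfRing

/-- The first-order theory of `ℤ^ab` in the language of rings is undecidable: there is no
computable `D` which, given the Gödel number of a sentence, tells whether the sentence holds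
in `ℤ^ab`. -/
theorem result : Function.Injective godel ∧
    ¬ ∃ D : ℕ → Bool, Computable D ∧
      ∀ φ : Language.ring.Sentence, (D (godel φ) = true ↔ Zab ⊨ φ) :=
  ⟨godel_injective, undecidable⟩

end Pool.Agent.Results.MP_5e144c_lc.ZabUndecidable
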